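import Mathlib
import Pool.Agent.Helper29.HP.Defs

set_option autoImplicit false

namespace Pool.Agent.Helper89.OS

open MvPolynomial Pool.Agent.Helper29.HP

/-- an irreducible plane curve of odd degree which does not pass through `(0, 0, 1)` -/
structure Cur (μ : P3) (m : ℕ) : Prop where
  hom : μ.IsHomogeneous (2 * m + 1)
  irr : Irreducible μ
  gp : eval ![0, 0, 1] μ ≠ 0

/-- the data of the parity theorem, in general position with respect to the line `x₀ = 0` and the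
point `(0, 0, 1)` -/
structure Dat (δ μ g h : P3) (M : Matrix (Fin 3) (Fin 3) P3) (m e : ℕ) : Prop where
  cur : Cur μ m
  hδ : δ.IsHomogeneous 6
  hsm : ∀ z : Fin 3 → ℂ, z ≠ 0 → eval z δ = 0 → ∃ i, eval z (pderiv i δ) ≠ 0
  hg : g.IsHomogeneous (e + 3)
  hh : h.IsHomogeneous e
  hgh : μ ∣ g ^ 2 - δ * h ^ 2
  hh0 : ∀ z : Fin 3 → ℂ, z ≠ 0 → eval z μ = 0 → eval z δ = 0 → eval z h ≠ 0
  hMs : M.IsSymm
  hM : ∀ i j, (M i j).IsHomogeneous 2
  hMd : M.det = δ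
  gpδ : ∀ z : Fin 3 → ℂ, z ≠ 0 → z 0 = 0 → eval z μ = 0 → eval z δ ≠ 0
  gph : ∀ z : Fin 3 → ℂ, z ≠ 0 → z 0 = 0 → eval z μ = 0 → eval z h ≠ 0

end Pool.Agent.Helper89.OS
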