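import Pool.Agent.Helper29.HP.Defs

set_option autoImplicit false

/-!
Project OS (MP_ffd2c1_ag): the one-sided theorem.  Definitions shared by all pieces.

`R = P3 = ℂ[x₀, x₁, x₂]`, `δ` the sextic, `μ` an irreducible form of degree `d = 2 m + 1`,
`M` a symmetric `3 × 3` matrix of quadratic forms with `det M = δ`, `A = M.adjugate`.
-/

namespace Pool.Agent.Helper89.OS

open MvPolynomial Pool.Agent.Helper29.HP

/-- the ideal `(μ, δ)` -/
noncomputable def Imd (μ δ : P3) : Ideal P3 := Ideal.span {μ, δ}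

/-- forms of degree `n` vanishing on half of the divisor of `μ` on `δ = 0` -/
noncomputable def IZ (μ δ : P3) (n : ℕ) : Submodule ℂ P3 :=
  Submodule.span ℂ {f : P3 | f.IsHomogeneous n ∧ f ^ 2 ∈ Imd μ δ}

/-- vectors of forms of degree `n` on which the form `A` lies in `(μ, δ)` -/
noncomputable def IA (μ δ : P3) (A : Matrix (Fin 3) (Fin 3) P3) (n : ℕ) :
    Submodule ℂ (Fin 3 → P3) :=
  Submodule.span ℂ {a : Fin 3 → P3 | (∀ i, (a i).IsHomogeneous n) ∧ a ⬝ᵥ A.mulVec a ∈ Imd μ δ}

/-- the function field of the curve `μ = 0` -/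
abbrev KG (μ : P3) : Type := AdjoinRoot (psi μ)

/-- values of forms in the function field -/
noncomputable def ev (μ : P3) : P3 →ₐ[ℂ] KG μ :=
  ((AdjoinRoot.mkₐ (psi μ)).restrictScalars ℂ).comp psi

/-- values of forms of degree `n` -/
noncomputable def LF (μ : P3) (n : ℤ) : Submodule ℂ (KG μ) :=
  if 0 ≤ n then (homogeneousSubmodule (Fin 3) ℂ n.toNat).map (ev μ).toLinearMap else ⊥

/-- the quaternion space of a ternary form -/
abbrev W4 (R : Type*) : Type _ := R × (Fin 3 → R)

/-- the multiplication of the even Clifford algebra of the ternary form `M`, in the basis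
`1, c₀, c₁, c₂` with `c_i c_j + c_j c_i = - 2 (adj M)_ij` -/
def qm {R : Type*} [CommRing R] (M : Matrix (Fin 3) (Fin 3) R) (p q : W4 R) : W4 R :=
  (p.1 * q.1 - p.2 ⬝ᵥ M.adjugate.mulVec q.2,
    p.1 • q.2 + q.1 • p.2 + M.mulVec (crossProduct p.2 q.2))

/-- the polar form of the norm -/
def nb {R : Type*} [CommRing R] (M : Matrix (Fin 3) (Fin 3) R) (p q : W4 R) : R :=
  p.1 * q.1 + p.2 ⬝ᵥ M.adjugate.mulVec q.2

theorem qm_add_left {R : Type*} [CommRing R] (M : Matrix (Fin 3) (Fin 3) R) (p p' q : W4 R) :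
    qm M (p + p') q = qm M p q + qm M p' q := by
  refine Prod.ext ?_ ?_
  · simp only [qm, Prod.fst_add, Prod.snd_add, add_dotProduct]; ring
  · simp only [qm, Prod.fst_add, Prod.snd_add, map_add, LinearMap.add_apply, Matrix.mulVec_add,
      add_smul, smul_add]
    abel

theorem qm_add_right {R : Type*} [CommRing R] (M : Matrix (Fin 3) (Fin 3) R) (p q q' : W4 R) :
    qm M p (q + q') = qm M p q + qm M p q' := by
  refine Prod.ext ?_ ?_
  · simp only [qm, Prod.fst_add, Prod.snd_add, Matrix.mulVec_add, dotProduct_add]; ring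
  · simp only [qm, Prod.fst_add, Prod.snd_add, map_add, Matrix.mulVec_add,
      add_smul, smul_add]
    abel

theorem qm_smul_left {R : Type*} [CommRing R] (M : Matrix (Fin 3) (Fin 3) R) (t : R) (p q : W4 R) :
    qm M (t • p) q = t • qm M p q := by
  refine Prod.ext ?_ ?_
  · simp only [qm, Prod.smul_fst, Prod.smul_snd, smul_dotProduct, smul_eq_mul]; ring
  · simp only [qm, Prod.smul_fst, Prod.smul_snd, map_smul, LinearMap.smul_apply,
      Matrix.mulVec_smul, smul_add, smul_eq_mul, smul_smul, mul_comm]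

theorem qm_smul_right {R : Type*} [CommRing R] (M : Matrix (Fin 3) (Fin 3) R) (t : R)
    (p q : W4 R) : qm M p (t • q) = t • qm M p q := by
  refine Prod.ext ?_ ?_
  · simp only [qm, Prod.smul_fst, Prod.smul_snd, Matrix.mulVec_smul, dotProduct_smul,
      smul_eq_mul]; ring
  · simp only [qm, Prod.smul_fst, Prod.smul_snd, map_smul,
      Matrix.mulVec_smul, smul_add, smul_eq_mul, smul_smul, mul_comm]

/-- left multiplication by `p` -/
def lmul {R : Type*} [CommRing R] (M : Matrix (Fin 3) (Fin 3) R) (p : W4 R) :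
    W4 R →ₗ[R] W4 R where
  toFun q := qm M p q
  map_add' q q' := qm_add_right M p q q'
  map_smul' t q := qm_smul_right M t p q

/-- right multiplication by `q` -/
def rmul {R : Type*} [CommRing R] (M : Matrix (Fin 3) (Fin 3) R) (q : W4 R) :
    W4 R →ₗ[R] W4 R where
  toFun p := qm M p q
  map_add' p p' := qm_add_left M p p' q
  map_smul' t p := qm_smul_left M t p q

/-- the matrix over the function field -/
noncomputable def MG (μ : P3) (M : Matrix (Fin 3) (Fin 3) P3) : Matrix (Fin 3) (Fin 3) (KG μ) :=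
  M.map (ev μ)

/-- the filtered lattice `V` -/
noncomputable def VF (μ δ : P3) (A : Matrix (Fin 3) (Fin 3) P3) (m : ℕ) (j : ℤ) :
    Submodule ℂ (W4 (KG μ)) :=
  Submodule.prod
    (if 0 ≤ j + m + 2 then (IZ μ δ (j + m + 2).toNat).map (ev μ).toLinearMap else ⊥)
    (if 0 ≤ j + m then (IA μ δ A (j + m).toNat).map ((ev μ).toLinearMap.compLeft (Fin 3)) else ⊥)

/-- the left ideal annihilated by the isotropic vector `ν` -/
noncomputable def TK (μ : P3) (M : Matrix (Fin 3) (Fin 3) P3) (ν : Fin 3 → KG μ) :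
    Submodule (KG μ) (W4 (KG μ)) :=
  LinearMap.ker (rmul (MG μ M) (0, ν))

/-- the filtered lattice `T` -/
noncomputable def TF (μ δ : P3) (M : Matrix (Fin 3) (Fin 3) P3) (m : ℕ) (ν : Fin 3 → KG μ)
    (j : ℤ) : Submodule ℂ (W4 (KG μ)) :=
  (TK μ M ν).restrictScalars ℂ ⊓ VF μ δ M.adjugate m j

/-- the action of the `k`-th generator of the Clifford algebra, `t = h / g` -/
noncomputable def gam (μ : P3) (M : Matrix (Fin 3) (Fin 3) P3) (t : KG μ) (k : Fin 3) :
    W4 (KG μ) →ₗ[KG μ] W4 (KG μ) :=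
  t • lmul (MG μ M) (0, fun i => MG μ M i k)

/-- the stable lattice `T#` -/
noncomputable def TS (μ δ : P3) (M : Matrix (Fin 3) (Fin 3) P3) (m : ℕ) (ν : Fin 3 → KG μ)
    (t : KG μ) (j : ℤ) : Submodule ℂ (W4 (KG μ)) :=
  TF μ δ M m ν j ⊔ ⨆ k, (TF μ δ M m ν (j - 1)).map ((gam μ M t k).restrictScalars ℂ)

/-- the field `ℂ(u₀, u₁, u₂)` -/
abbrev FU : Type := FractionRing P3

/-- the field `ℂ(Γ)(u₀, u₁, u₂)` -/
abbrev EU (μ : P3) [Fact (Irreducible (psi μ))] : Type :=
  FractionRing (MvPolynomial (Fin 3) (KG μ))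

end Pool.Agent.Helper89.OS
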