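import Pool.Agent.Helper89.OS.Hom
import Pool.Agent.Helper89.OS.St.X7
import Pool.Agent.Helper89.OS.St.X14
import Pool.Agent.Helper89.OS.St.X15
import Pool.Agent.Helper89.OS.St.X19
import Pool.Agent.Helper29.OS.Section

set_option autoImplicit false

/-!
The one-sided parity theorem.
-/

namespace Pool.Agent.Helper89.OS

open MvPolynomial Pool.Agent.Helper29.HP Pool.Agent.Helper16 Pool.Agent.Helper89.VE Module

theorem exists_adj_not_dvd {δ : P3} {M : Matrix (Fin 3) (Fin 3) P3} (hδ : Prime δ)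
    (hMs : M.IsSymm) (hMd : M.det = δ) : ∃ j, ¬ δ ∣ M.adjugate j j := by
  by_contra hc
  push Not at hc
  have hall : ∀ i j, δ ∣ M.adjugate i j := by
    intro i j
    have h1 := det_dvd_adj M i i j j
    have hs : M.adjugate j i = M.adjugate i j := by
      have h2 : M.adjugate.transpose = M.adjugate := by
        rw [Matrix.adjugate_transpose, hMs]
      exact (congrFun (congrFun h2 i) j)
    rw [hMd, hs] at h1
    have h3 : δ ∣ M.adjugate i j ^ 2 := by
      have h4 : M.adjugate i j ^ 2 = M.adjugate i i * M.adjugate j j -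
          (M.adjugate i i * M.adjugate j j - M.adjugate i j * M.adjugate i j) := by ring
      rw [h4]
      exact dvd_sub ((hc i).mul_right _) h1
    exact hδ.dvd_of_dvd_pow h3
  choose B hB using hall
  have h1 : M.adjugate = δ • (Matrix.of B) := by
    ext i j
    rw [hB i j]
    simp
  have h2 := Matrix.det_adjugate M
  rw [h1, Matrix.det_smul, hMd, Fintype.card_fin] at h2
  have h3 : δ * (Matrix.of B).det = 1 := by
    have h4 : δ ^ 2 ≠ 0 := pow_ne_zero _ hδ.ne_zero
    apply mul_left_cancel₀ h4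
    have h5 : (3 - 1 : ℕ) = 2 := rfl
    rw [h5] at h2
    linear_combination h2
  exact hδ.not_isUnit (IsUnit.of_mul_eq_one _ h3)

theorem eval_zero_of_hom {f : P3} {n : ℕ} (hf : f.IsHomogeneous n) (hn : n ≠ 0) :
    eval 0 f = 0 := by
  have h1 : coeff 0 f = 0 := hf.coeff_eq_zero (by simp; omega)
  rw [← constantCoeff_eq] at h1
  rw [← h1, MvPolynomial.eval_zero]

theorem parity_aux (k : ℕ) :
    Even ((k - 1).choose 2 + (3 * (k + 1).choose 2 + 1) + (3 - (k + 1)).choose 2) := by
  rcases k with _ | _ | n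
  · decide
  · decide
  · have h1 : (3 - (n + 1 + 1 + 1)).choose 2 = 0 := by
      have : 3 - (n + 1 + 1 + 1) = 0 := by omega
      rw [this]; rfl
    have h2 : n + 1 + 1 - 1 = n + 1 := by omega
    have h3 : (n + 1 + 1 + 1).choose 2 = (n + 1).choose 2 + (n + 1) + (n + 2) := by
      rw [Nat.choose_succ_succ' (n + 1 + 1) 1, Nat.choose_succ_succ' (n + 1) 1]
      simp
      ring
    rw [h1, h2, h3]
    refine ⟨2 * (n + 1).choose 2 + 3 * n + 5, ?_⟩
    ring

/-- A smooth cubic fourfold containing a plane, with smooth discriminant `D`, is rational if there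
is an irreducible plane curve `μ = 0` of odd degree, on which the square root `g / h` of the
equation of `D` is a regular function at the points of `D`, such that the half of the divisor cut
out by `μ` on `D` has an even number of sections. -/
theorem one_sided {c : Cub (I6 → ℂ)} (hP : c.Iso P0)
    (hsm : ∀ z : Fin 3 → ℂ, z ≠ 0 → eval z c.disc = 0 → ∃ i, eval z (pderiv i c.disc) ≠ 0)
    {μ g h : P3} {k e : ℕ} (hμ : μ.IsHomogeneous (2 * k + 3)) (hμi : Irreducible μ)
    (hg : g.IsHomogeneous (e + 3)) (hh : h.IsHomogeneous e) (hgh : μ ∣ g ^ 2 - c.disc * h ^ 2)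
    (hh0 : ∀ z : Fin 3 → ℂ, z ≠ 0 → eval z μ = 0 → eval z c.disc = 0 → eval z h ≠ 0)
    (hev : Even (finrank ℂ (Sig c.disc μ k))) : c.Rat4 := by
  have hδ : c.disc.IsHomogeneous 6 := c.disc_hom
  have hirr : Irreducible c.disc := irreducible_of_smooth (by norm_num) hδ hsm
  have hμδ : ¬ c.disc ∣ μ := by
    intro hd
    obtain ⟨u, hu⟩ := hd
    rcases hμi.isUnit_or_isUnit hu with h1 | h1
    · exact hirr.not_isUnit h1
    · rw [MvPolynomial.isUnit_iff_eq_C_of_isReduced] at h1
      obtain ⟨r, -, hr⟩ := h1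
      have h2 : μ.IsHomogeneous 6 := by
        rw [hu, hr]
        simpa using hδ.mul (isHomogeneous_C (Fin 3) r)
      have h3 := hμ.inj_right h2 hμi.ne_zero
      omega
  have hμ' : μ.IsHomogeneous (2 * (k + 1) + 1) := hμ
  have hsp : ∀ π : P3, Irreducible π → π ∣ μ →
      ∃ g h : P3, ¬ π ∣ h ∧ π ∣ g ^ 2 - c.disc * h ^ 2 := by
    intro π hπ hd
    have hass : Associated π μ := hπ.associated_of_dvd hμi hd
    refine ⟨g, h, ?_, hd.trans hgh⟩
    intro hdh
    obtain ⟨z, hz0, hz⟩ := exists_common_zero (σ := Fin 3) ![μ, c.disc] (by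
      intro i
      fin_cases i
      · exact eval_zero_of_hom hμ (by omega)
      · exact eval_zero_of_hom hδ (by omega)) (by simp)
    have h0 := hz 0
    have h1 := hz 1
    simp only [Matrix.cons_val_zero, Matrix.cons_val_one] at h0 h1
    apply hh0 z hz0 h0 h1
    obtain ⟨q, hq⟩ := (hass.symm.dvd).trans hdh
    rw [hq, map_mul, h0, zero_mul]
  rcases exists_verra hP hsm μ (k + 1) hμ' hμδ hsp with
    h1 | ⟨a, s, ha, hdet, hs, hss⟩
  · exact h1
  have hMd : (MX a).det = c.disc := hdet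
  obtain ⟨n, hn, h33⟩ := c.adj_hom 3 3
  have hw : wt 3 = 0 := rfl
  rw [hw] at hn
  have hn' : n = 3 := by omega
  subst hn'
  have hc0 : (c.Nm (X : Fin 3 → P3)).adjugate 3 3 ≠ 0 := by
    intro hh
    apply adj33_not_dvd hirr
    rw [hh]
    exact dvd_zero _
  have hIA := finrank_IA (μ := μ) (m := k + 1) hδ hsm hμ' hμδ (MX_symm ha)
    (MX_hom a) hMd h33 hc0 s hs hss (fun τ t hτ ht h => theta_unique hsm hτ ht h)
  have hIZ := finrank_IZ_Sig (μ := μ) (k := k) hδ hsm hμ hμδ
  have hpar : Even (finrank ℂ (IZ μ c.disc (k + 1 + 2)) +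
      finrank ℂ (IA μ c.disc (MX a).adjugate (k + 1)) + (3 - (k + 1)).choose 2) := by
    have e1 : k + 1 + 2 = k + 3 := rfl
    rw [e1, hIA, hIZ]
    have h2 := hev.add (parity_aux k)
    rwa [← add_assoc, ← add_assoc] at h2
  obtain ⟨x, w, hxw, hx⟩ := exists_section (μ := μ) (m := k + 1) hμ' hμi hδ hsm
    hg hh hgh hh0 (MX_symm ha) (MX_hom a) hMd hpar
  obtain ⟨y, hy, hy0⟩ := section_KK x w hxw hx
  obtain ⟨j, hj⟩ := exists_adj_not_dvd hirr.prime (MX_symm ha) hMd
  obtain hi := adj33_not_dvd hirr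
  refine Pool.Agent.Helper29.OS.rat4_of_section hP hirr ha hdet hsm μ hμ hμδ hsp 3 j (s j) hi hj ?_
    y hy hy0
  rw [pow_two]
  exact hss j j

end Pool.Agent.Helper89.OS
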