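import Pool.Agent.Helper89.OS.St.X6c
import Pool.Agent.Helper89.OS.St.X8
import Pool.Agent.Helper27.OSX.Curve

set_option autoImplicit false

/-!
Growth of the filtered lattice `TF` (fallback for the first half of X10).
-/

namespace Pool.Agent.Helper89.OS.Gr

open MvPolynomial Pool.Agent.Helper29.HP Module Pool.Agent.Helper89.OS Pool.Agent.Helper27.OSX

variable {δ μ g h : P3} {M : Matrix (Fin 3) (Fin 3) P3} {m e : ℕ}

theorem exists_bound {n : ℕ} (P : Fin n → Polynomial ℂ) :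
    ∃ N : ℤ, ∀ (k : Fin n) (t : ℕ), N - (k : ℕ) < t → (P k).coeff t = 0 := by
  refine ⟨∑ k, (((P k).natDegree : ℤ) + (k : ℕ)), fun k t ht => ?_⟩
  apply Polynomial.coeff_eq_zero_of_natDegree_lt
  have h1 : ((P k).natDegree : ℤ) + (k : ℕ) ≤ ∑ k, (((P k).natDegree : ℤ) + (k : ℕ)) :=
    Finset.single_le_sum (f := fun k : Fin n => ((P k).natDegree : ℤ) + (k : ℕ))
      (fun k _ => by positivity) (Finset.mem_univ k)
  omega

theorem cq_mem (hc : Cur μ m) (q : Polynomial ℂ) : ∃ i : ℤ, cq μ q ∈ LF μ i := by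
  obtain ⟨N, hN⟩ := exists_bound (Pi.single (⟨0, by omega⟩ : Fin (2 * m + 1)) q)
  refine ⟨N, ?_⟩
  have h1 := rep_mem (μ := μ) _ hN
  rw [Finset.sum_eq_single (⟨0, by omega⟩ : Fin (2 * m + 1))] at h1
  · rw [Pi.single_eq_same, pow_zero, mul_one] at h1
    exact h1
  · intro k _ hk
    rw [Pi.single_eq_of_ne hk, map_zero, zero_mul]
  · intro hh
    exact absurd (Finset.mem_univ _) hh

/-- denominators in the function field -/
theorem exists_den1 (hc : Cur μ m) (b : KG μ) :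
    ∃ q : Polynomial ℂ, q ≠ 0 ∧ ∃ j : ℤ, cq μ q * b ∈ LF μ j := by
  classical
  set c := (yb hc).equivFun b with hcd
  obtain ⟨q, hq⟩ := IsLocalization.exist_integer_multiples_of_finset
    (nonZeroDivisors (Polynomial ℂ)) (Finset.univ.image c)
  have h1 : ∀ k, ∃ P : Polynomial ℂ, algebraMap (Polynomial ℂ) kx P =
      algebraMap (Polynomial ℂ) kx q * c k := by
    intro k
    obtain ⟨P, hP⟩ := hq (c k) (Finset.mem_image_of_mem _ (Finset.mem_univ k))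
    exact ⟨P, by rw [hP, Algebra.smul_def]⟩
  choose P hP using h1
  obtain ⟨N, hN⟩ := exists_bound P
  refine ⟨q, nonZeroDivisors.coe_ne_zero q, N, ?_⟩
  have h2 := rep_mem (μ := μ) P hN
  convert h2 using 1
  rw [cq_mul_eq]
  conv_lhs => rw [← (yb hc).sum_equivFun b]
  rw [Finset.smul_sum]
  refine Finset.sum_congr rfl fun k _ => ?_
  rw [cq_mul_eq, hP, yb_apply, smul_smul]

theorem cq_ne_zero (hc : Cur μ m) {q : Polynomial ℂ} (hq : q ≠ 0) : cq μ q ≠ 0 := by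
  intro h0
  have h1 : (algebraMap (Polynomial ℂ) kx q) • yb hc ⟨0, by omega⟩ = 0 := by
    rw [← cq_mul_eq, h0, zero_mul]
  rw [smul_eq_zero] at h1
  rcases h1 with h1 | h1
  · exact hq ((map_eq_zero_iff _ (IsFractionRing.injective (Polynomial ℂ) kx)).mp h1)
  · exact (yb hc).ne_zero _ h1

theorem exists_den (hc : Cur μ m) {n : ℕ} (v : Fin n → KG μ) :
    ∃ q : Polynomial ℂ, q ≠ 0 ∧ ∃ j : ℤ, ∀ i, cq μ q * v i ∈ LF μ j := by
  induction n with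
  | zero => exact ⟨1, one_ne_zero, 0, fun i => i.elim0⟩
  | succ n ih =>
    obtain ⟨q, hq, j, hj⟩ := ih (fun i => v i.succ)
    obtain ⟨q', hq', j', hj'⟩ := exists_den1 hc (v 0)
    obtain ⟨k, hk⟩ := cq_mem hc q
    obtain ⟨k', hk'⟩ := cq_mem hc q'
    refine ⟨q * q', mul_ne_zero hq hq', max (k + j') (k' + j), fun i => ?_⟩
    rw [map_mul]
    refine Fin.cases ?_ (fun i => ?_) i
    · rw [mul_assoc]
      exact LF_mono μ (le_max_left _ _) (LF_mul hk hj')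
    · rw [mul_comm (cq μ q), mul_assoc]
      exact LF_mono μ (le_max_right _ _) (LF_mul hk' (hj i))

theorem MG_det' (D : Dat δ μ g h M m e) : (MG μ M).det = ev μ δ := by
  rw [MG_det, D.hMd]

/-- every vector is a quotient of a vector in the lattice -/
theorem exists_denW (D : Dat δ μ g h M m e) [Fact (Irreducible (psi μ))] (u : W4 (KG μ)) :
    ∃ q : Polynomial ℂ, q ≠ 0 ∧ ∃ j : ℤ, cq μ q • u ∈ VF μ δ M.adjugate m j := by
  have hδ0 := D.ev_δ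
  obtain ⟨q, hq, j, hj⟩ := exists_den D.cur
    (Fin.cons ((ev μ δ)⁻¹ * u.1) (fun i => (ev μ δ)⁻¹ * (MG μ M).adjugate.mulVec u.2 i))
  refine ⟨q, hq, j + m + 4, ?_⟩
  have h1 : cq μ q • u = (ev μ δ * (cq μ q * ((ev μ δ)⁻¹ * u.1)), 0) +
      (0, (MG μ M).mulVec (fun i => cq μ q * ((ev μ δ)⁻¹ * (MG μ M).adjugate.mulVec u.2 i))) := by
    refine Prod.ext ?_ ?_
    · simp only [Prod.smul_fst, smul_eq_mul, Prod.fst_add, add_zero]
      field_simp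
    · simp only [Prod.smul_snd, Prod.snd_add, zero_add]
      have h2 : (fun i => cq μ q * ((ev μ δ)⁻¹ * (MG μ M).adjugate.mulVec u.2 i)) =
          (cq μ q * (ev μ δ)⁻¹) • (MG μ M).adjugate.mulVec u.2 := by
        funext i
        simp only [Pi.smul_apply, smul_eq_mul]
        ring
      rw [h2, Matrix.mulVec_smul, Matrix.mulVec_mulVec, Matrix.mul_adjugate, MG_det' D,
        Matrix.smul_mulVec, Matrix.one_mulVec, smul_smul]
      congr 1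
      field_simp
  rw [h1]
  refine add_mem (VF_fst D ?_) (VF_snd D ?_)
  · have := hj 0
    rw [Fin.cons_zero] at this
    exact LF_mono μ (by omega) this
  · intro i
    have := hj i.succ
    rw [Fin.cons_succ] at this
    exact LF_mono μ (by omega) this

section abs

variable {W : Type*} [AddCommGroup W] [Module ℂ W]

theorem diff_mono (F : ℤ → Submodule ℂ W) (hm : Monotone F)
    (hfin : ∀ j, FiniteDimensional ℂ (F j)) (x : W →ₗ[ℂ] W) (hx : Function.Injective x)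
    (hxF : ∀ j, ∀ v ∈ F j, x v ∈ F (j + 1))
    (hsat : ∀ j, ∀ v ∈ F (j + 1), x v ∈ F (j + 1) → v ∈ F j) (j : ℤ) :
    (finrank ℂ (F (j + 1)) : ℤ) - finrank ℂ (F j) ≤
      finrank ℂ (F (j + 1 + 1)) - finrank ℂ (F (j + 1)) := by
  have h1 : ((F (j + 1)).map x ⊓ F (j + 1)) = (F j).map x := by
    apply le_antisymm
    · rintro _ ⟨⟨v, hv, rfl⟩, h2⟩
      exact ⟨v, hsat j v hv h2, rfl⟩
    · rintro _ ⟨v, hv, rfl⟩
      exact ⟨⟨v, hm (by omega) hv, rfl⟩, hxF j v hv⟩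
  have h2 : (F (j + 1)).map x ⊔ F (j + 1) ≤ F (j + 1 + 1) := by
    refine sup_le ?_ (hm (by omega))
    rintro _ ⟨v, hv, rfl⟩
    exact hxF _ v hv
  have h3 := Submodule.finrank_sup_add_finrank_inf_eq ((F (j + 1)).map x) (F (j + 1))
  have h4 : finrank ℂ ((F (j + 1)).map x) = finrank ℂ (F (j + 1)) :=
    ((Submodule.equivMapOfInjective x hx (F (j + 1))).finrank_eq).symm
  have h5 : finrank ℂ ((F j).map x) = finrank ℂ (F j) :=
    ((Submodule.equivMapOfInjective x hx (F j)).finrank_eq).symm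
  rw [h1, h4, h5] at h3
  have h6 := Submodule.finrank_mono h2
  omega

theorem diff_le (F G : ℤ → Submodule ℂ W) (hfin : ∀ j, FiniteDimensional ℂ (G j))
    (hGm : Monotone G) (hFG : ∀ j, F j ≤ G j)
    (hinf : ∀ j, F (j + 1) ⊓ G j = F j) (j : ℤ) :
    (finrank ℂ (F (j + 1)) : ℤ) - finrank ℂ (F j) ≤
      finrank ℂ (G (j + 1)) - finrank ℂ (G j) := by
  have : FiniteDimensional ℂ (F (j + 1)) := Submodule.finiteDimensional_of_le (hFG _)
  have h3 := Submodule.finrank_sup_add_finrank_inf_eq (F (j + 1)) (G j)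
  rw [hinf] at h3
  have h4 : F (j + 1) ⊔ G j ≤ G (j + 1) := sup_le (hFG _) (hGm (by omega))
  have h6 := Submodule.finrank_mono h4
  omega

theorem linear_of_diff (f : ℤ → ℤ) (t j₁ : ℤ) (h : ∀ j, j₁ ≤ j → f (j + 1) - f j = t) :
    ∀ j, j₁ ≤ j → f j = t * j + (f j₁ - t * j₁) := by
  intro j hj
  obtain ⟨n, rfl⟩ : ∃ n : ℕ, j = j₁ + n := ⟨(j - j₁).toNat, by omega⟩
  clear hj
  induction n with
  | zero => simp
  | succ n ih =>
    have h1 := h (j₁ + n) (by omega)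
    have h2 : j₁ + ((n + 1 : ℕ) : ℤ) = j₁ + n + 1 := by push_cast; ring
    rw [h2]
    linear_combination h1 + ih

theorem slope_le {a b a' b' J : ℤ} (h : ∀ j, J ≤ j → a * j + b ≤ a' * j + b') : a ≤ a' := by
  by_contra hcon
  push Not at hcon
  have h1 := h (max J (max 0 (b' - b + 1))) (le_max_left _ _)
  have h2 : b' - b + 1 ≤ max J (max 0 (b' - b + 1)) := le_trans (le_max_right _ _) (le_max_right _ _)
  have h3 : 0 ≤ max J (max 0 (b' - b + 1)) := le_trans (le_max_left _ _) (le_max_right _ _)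
  nlinarith

end abs

/-- two vectors independent modulo `T` -/
theorem two_vec (D : Dat δ μ g h M m e) (T : Submodule (KG μ) (W4 (KG μ)))
    {c : ℤ} {w₁ w₂ : W4 (KG μ)}
    (h1 : w₁ ∈ VF μ δ M.adjugate m c) (h2 : w₂ ∈ VF μ δ M.adjugate m c)
    (hli : ∀ b₁ b₂ : KG μ, b₁ • w₁ + b₂ • w₂ ∈ T → b₁ = 0 ∧ b₂ = 0) (F : ℤ → Submodule ℂ (W4 (KG μ)))
    (hF : ∀ j, F j ≤ VF μ δ M.adjugate m j)
    (hFw : ∀ i b, b ∈ LF μ i → b • w₁ ∈ F (i + c) ∧ b • w₂ ∈ F (i + c)) (j : ℤ) :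
    finrank ℂ ↥(T.restrictScalars ℂ ⊓ F j) + 2 * finrank ℂ (LF μ (j - c)) ≤ finrank ℂ (F j) := by
  have hfinF : FiniteDimensional ℂ (F j) := by
    have := VF_fin μ δ M.adjugate m j
    exact Submodule.finiteDimensional_of_le (hF j)
  have hLF := LF_fin μ (j - c)
  let φ : (LF μ (j - c) × LF μ (j - c)) →ₗ[ℂ] W4 (KG μ) :=
    { toFun := fun b => (b.1 : KG μ) • w₁ + (b.2 : KG μ) • w₂
      map_add' := fun b b' => by
        simp only [Prod.fst_add, Prod.snd_add, Submodule.coe_add, add_smul]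
        abel
      map_smul' := fun t b => by
        simp only [Prod.smul_fst, Prod.smul_snd, Submodule.coe_smul, RingHom.id_apply, smul_add,
          smul_assoc] }
  have hφ : Function.Injective φ := by
    rw [← LinearMap.ker_eq_bot, eq_bot_iff]
    rintro ⟨b₁, b₂⟩ hb
    have h3 : (b₁ : KG μ) • w₁ + (b₂ : KG μ) • w₂ = 0 := hb
    obtain ⟨h4, h5⟩ := hli b₁ b₂ (by rw [h3]; exact zero_mem _)
    rw [Submodule.mem_bot]
    exact Prod.ext (Subtype.ext h4) (Subtype.ext h5)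
  have hr : LinearMap.range φ ≤ F j := by
    rintro _ ⟨⟨b₁, b₂⟩, rfl⟩
    have h3 := (hFw (j - c) b₁ b₁.2).1
    have h4 := (hFw (j - c) b₂ b₂.2).2
    rw [sub_add_cancel] at h3 h4
    exact add_mem h3 h4
  have hd : (T.restrictScalars ℂ ⊓ F j) ⊓ LinearMap.range φ = ⊥ := by
    rw [eq_bot_iff]
    rintro _ ⟨⟨h3, -⟩, ⟨⟨b₁, b₂⟩, rfl⟩⟩
    obtain ⟨h4, h5⟩ := hli b₁ b₂ h3
    rw [Submodule.mem_bot]
    have : (⟨b₁, b₂⟩ : LF μ (j - c) × LF μ (j - c)) = 0 :=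
      Prod.ext (Subtype.ext h4) (Subtype.ext h5)
    rw [this, map_zero]
  have hfin2 : FiniteDimensional ℂ ↥(T.restrictScalars ℂ ⊓ F j) :=
    Submodule.finiteDimensional_of_le inf_le_right
  have h6 := Submodule.finrank_sup_add_finrank_inf_eq (T.restrictScalars ℂ ⊓ F j)
    (LinearMap.range φ)
  rw [hd, finrank_bot, LinearMap.finrank_range_of_inj hφ, Module.finrank_prod] at h6
  have h7 : (T.restrictScalars ℂ ⊓ F j) ⊔ LinearMap.range φ ≤ F j := sup_le inf_le_right hr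
  have h8 := Submodule.finrank_mono h7
  omega

/-- scaling two vectors into the lattice -/
theorem scale_two (D : Dat δ μ g h M m e) [Fact (Irreducible (psi μ))] (u₁ u₂ : W4 (KG μ)) :
    ∃ q : KG μ, q ≠ 0 ∧ ∃ c : ℤ, q • u₁ ∈ VF μ δ M.adjugate m c ∧
      q • u₂ ∈ VF μ δ M.adjugate m c := by
  obtain ⟨q₁, hq₁, j₁, hj₁⟩ := exists_denW D u₁
  obtain ⟨q₂, hq₂, j₂, hj₂⟩ := exists_denW D u₂
  obtain ⟨k₁, hk₁⟩ := cq_mem D.cur q₁
  obtain ⟨k₂, hk₂⟩ := cq_mem D.cur q₂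
  refine ⟨cq μ q₁ * cq μ q₂, mul_ne_zero (cq_ne_zero D.cur hq₁) (cq_ne_zero D.cur hq₂),
    max (k₂ + j₁) (k₁ + j₂), ?_, ?_⟩
  · rw [mul_comm, mul_smul]
    exact VF_mono D (le_max_left _ _) (VF_smul D hk₂ hj₁)
  · rw [mul_smul]
    exact VF_mono D (le_max_right _ _) (VF_smul D hk₁ hj₂)

theorem two_ne (μ : P3) [Fact (Irreducible (psi μ))] : (2 : KG μ) ≠ 0 := by
  have h1 : (2 : KG μ) = algebraMap ℂ (KG μ) 2 := by rw [map_ofNat]
  rw [h1, Ne, map_eq_zero_iff _ (algebraMap ℂ (KG μ)).injective]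
  norm_num

theorem MG_symm' (D : Dat δ μ g h M m e) : (MG μ M).IsSymm := by
  apply Matrix.IsSymm.ext
  intro i j
  simp only [MG, Matrix.map_apply]
  rw [D.hMs.apply]

theorem pair_abs {K W : Type*} [Field K] [AddCommGroup W] [Module K W] [FiniteDimensional K W]
    (T : Submodule K W) (hT : finrank K T = 2) (hW : finrank K W = 4) :
    (∃ u₁ ∈ T, ∃ u₂ ∈ T, ∀ b₁ b₂ : K, b₁ • u₁ + b₂ • u₂ = 0 → b₁ = 0 ∧ b₂ = 0) ∧
    (∃ w₁ w₂ : W, ∀ b₁ b₂ : K, b₁ • w₁ + b₂ • w₂ ∈ T → b₁ = 0 ∧ b₂ = 0) := by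
  constructor
  · have b := finBasisOfFinrankEq K T hT
    refine ⟨b 0, (b 0).2, b 1, (b 1).2, fun b₁ b₂ hb => ?_⟩
    have h1 : b₁ • b 0 + b₂ • b 1 = 0 := Subtype.ext hb
    have h2 := Fintype.linearIndependent_iff.mp b.linearIndependent ![b₁, b₂] (by
      rw [Fin.sum_univ_two]
      exact h1)
    exact ⟨h2 0, h2 1⟩
  · obtain ⟨Q, hQ⟩ := Submodule.exists_isCompl T
    have h1 := Submodule.finrank_add_eq_of_isCompl hQ
    have h3 : finrank K Q = 2 := by omega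
    have b := finBasisOfFinrankEq K Q h3
    refine ⟨b 0, b 1, fun b₁ b₂ hb => ?_⟩
    have h4 : b₁ • (b 0 : W) + b₂ • (b 1 : W) ∈ Q :=
      add_mem (Q.smul_mem _ (b 0).2) (Q.smul_mem _ (b 1).2)
    have h5 : b₁ • (b 0 : W) + b₂ • (b 1 : W) = 0 := by
      have h6 : b₁ • (b 0 : W) + b₂ • (b 1 : W) ∈ T ⊓ Q := ⟨hb, h4⟩
      rw [hQ.inf_eq_bot] at h6
      exact (Submodule.mem_bot _).mp h6
    have h7 : b₁ • b 0 + b₂ • b 1 = 0 := Subtype.ext h5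
    have h8 := Fintype.linearIndependent_iff.mp b.linearIndependent ![b₁, b₂] (by
      rw [Fin.sum_univ_two]
      exact h7)
    exact ⟨h8 0, h8 1⟩

theorem pair_W4 {K : Type*} [Field K] (M : Matrix (Fin 3) (Fin 3) K) (hM : M.IsSymm)
    (hd : M.det ≠ 0) (ν : Fin 3 → K) (hν0 : ν ≠ 0) (hν : ν ⬝ᵥ M.adjugate.mulVec ν = 0)
    (h2 : (2 : K) ≠ 0) :
    (∃ u₁, qm M u₁ (0, ν) = 0 ∧ ∃ u₂, qm M u₂ (0, ν) = 0 ∧
      ∀ b₁ b₂ : K, b₁ • u₁ + b₂ • u₂ = 0 → b₁ = 0 ∧ b₂ = 0) ∧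
    (∃ w₁ w₂ : W4 K, ∀ b₁ b₂ : K, qm M (b₁ • w₁ + b₂ • w₂) (0, ν) = 0 → b₁ = 0 ∧ b₂ = 0) := by
  have h4 : finrank K (W4 K) = 4 := by
    rw [Module.finrank_prod, Module.finrank_self, Module.finrank_fin_fun]
  obtain ⟨⟨u₁, h1, u₂, h2, h3⟩, w₁, w₂, h5⟩ := pair_abs (LinearMap.ker (rmul M (0, ν)))
    (T_finrank M hM hd ν hν0 hν h2) h4
  exact ⟨⟨u₁, h1, u₂, h2, h3⟩, w₁, w₂, h5⟩

theorem pair_W4' {K : Type*} [CommRing K] (hK : IsField K) (M : Matrix (Fin 3) (Fin 3) K)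
    (hM : M.IsSymm)
    (hd : M.det ≠ 0) (ν : Fin 3 → K) (hν0 : ν ≠ 0) (hν : ν ⬝ᵥ M.adjugate.mulVec ν = 0)
    (h2 : (2 : K) ≠ 0) :
    (∃ u₁ : W4 K, qm M u₁ (0, ν) = 0 ∧ ∃ u₂ : W4 K, qm M u₂ (0, ν) = 0 ∧
      ∀ b₁ b₂ : K, b₁ • u₁ + b₂ • u₂ = 0 → b₁ = 0 ∧ b₂ = 0) ∧
    (∃ w₁ w₂ : W4 K, ∀ b₁ b₂ : K, qm M (b₁ • w₁ + b₂ • w₂) (0, ν) = 0 → b₁ = 0 ∧ b₂ = 0) := by
  letI := hK.toField
  exact pair_W4 M hM hd ν hν0 hν h2

theorem isField_KG (μ : P3) [Fact (Irreducible (psi μ))] : IsField (KG μ) :=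
  Field.toIsField (AdjoinRoot (psi μ))

theorem exists_pair (D : Dat δ μ g h M m e) [hF : Fact (Irreducible (psi μ))] (ν : Fin 3 → KG μ)
    (hν0 : ν ≠ 0) (hν : ν ⬝ᵥ (MG μ M).adjugate.mulVec ν = 0) :
    (∃ u₁ ∈ TK μ M ν, ∃ u₂ ∈ TK μ M ν, ∀ b₁ b₂ : KG μ, b₁ • u₁ + b₂ • u₂ = 0 → b₁ = 0 ∧ b₂ = 0) ∧
    (∃ w₁ w₂ : W4 (KG μ), ∀ b₁ b₂ : KG μ, b₁ • w₁ + b₂ • w₂ ∈ TK μ M ν → b₁ = 0 ∧ b₂ = 0) := by
  have hd : (MG μ M).det ≠ 0 := by
    rw [MG_det' D]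
    exact D.ev_δ
  have h2 := two_ne μ
  have hK := isField_KG μ
  exact pair_W4' hK (MG μ M) (MG_symm' D) hd ν hν0 hν h2

theorem mem_TF {ν : Fin 3 → KG μ} {j : ℤ} {v : W4 (KG μ)} :
    v ∈ TF μ δ M m ν j ↔ v ∈ TK μ M ν ∧ v ∈ VF μ δ M.adjugate m j := Iff.rfl

theorem TF_fin' (ν : Fin 3 → KG μ) (j : ℤ) : FiniteDimensional ℂ (TF μ δ M m ν j) := by
  have := VF_fin μ δ M.adjugate m j
  exact Submodule.finiteDimensional_of_le (S₂ := VF μ δ M.adjugate m j) inf_le_right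

theorem X1_cz (D : Dat δ μ g h M m e) :
    ∀ z : Fin 3 → ℂ, z ≠ 0 → z 0 = 0 → eval z μ = 0 → eval z (X 1) ≠ 0 := by
  intro z hz h0 hμ h1
  rw [eval_X] at h1
  have h2 : z = z 2 • (![0, 0, 1] : Fin 3 → ℂ) := by
    funext i
    fin_cases i
    · simp [h0]
    · simp [h1]
    · simp
  have h3 : z 2 ≠ 0 := by
    intro h3
    apply hz
    rw [h2, h3, zero_smul]
  rw [h2, Helper16.eval_smul_of_hom D.cur.hom] at hμ
  rcases mul_eq_zero.mp hμ with h4 | h4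
  · exact h3 (pow_eq_zero_iff (by omega) |>.mp h4)
  · exact D.cur.gp h4

/-- multiplication by `x` -/
noncomputable def mx (μ : P3) : W4 (KG μ) →ₗ[ℂ] W4 (KG μ) :=
  ((ev μ (X 1)) • (LinearMap.id : W4 (KG μ) →ₗ[KG μ] W4 (KG μ))).restrictScalars ℂ

theorem mx_apply (μ : P3) (v : W4 (KG μ)) : mx μ v = ev μ (X 1) • v := rfl

theorem mx_inj (D : Dat δ μ g h M m e) : Function.Injective (mx μ) := by
  have := isDomain_KG D.cur
  have hx : ev μ (X 1) ≠ 0 := by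
    rw [Ne, ev_eq_zero D.cur (isHomogeneous_X ℂ 1)]
    rintro ⟨q, hq⟩
    obtain ⟨z, hz0, hz1, hz2⟩ := D.exists_pt
    exact X1_cz D z hz0 hz1 hz2 (by rw [hq, map_mul, hz2, zero_mul])
  rw [← LinearMap.ker_eq_bot, eq_bot_iff]
  intro v hv
  have h1 : ev μ (X 1) • v = 0 := hv
  rw [Submodule.mem_bot]
  refine Prod.ext ?_ (funext fun i => ?_)
  · have h2 := congrArg Prod.fst h1
    exact (mul_eq_zero.mp h2).resolve_left hx
  · have h2 := congrFun (congrArg Prod.snd h1) i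
    exact (mul_eq_zero.mp h2).resolve_left hx

theorem VF_x (D : Dat δ μ g h M m e) {j : ℤ} {v : W4 (KG μ)}
    (hv : v ∈ VF μ δ M.adjugate m j) : mx μ v ∈ VF μ δ M.adjugate m (j + 1) := by
  have h1 := VF_smul D (ev_mem μ (isHomogeneous_X ℂ (1 : Fin 3))) hv
  rw [mx_apply]
  convert h1 using 2
  push_cast
  ring

theorem VF_xsat (D : Dat δ μ g h M m e) {i j : ℤ} {v : W4 (KG μ)}
    (hv : v ∈ VF μ δ M.adjugate m i) (h1 : mx μ v ∈ VF μ δ M.adjugate m (j + 1)) :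
    v ∈ VF μ δ M.adjugate m j := by
  refine VF_reg D (isHomogeneous_X ℂ (1 : Fin 3)) (X1_cz D) hv ?_
  rw [mx_apply] at h1
  exact_mod_cast h1

theorem TF_growth' (D : Dat δ μ g h M m e) [Fact (Irreducible (psi μ))] (ν : Fin 3 → KG μ)
    (hν0 : ν ≠ 0) (hν : ν ⬝ᵥ (MG μ M).adjugate.mulVec ν = 0) :
    ∃ τ j₁ : ℤ, ∀ j, j₁ ≤ j → (finrank ℂ (TF μ δ M m ν j) : ℤ) = 2 * (2 * m + 1) * j + τ := by
  have hTm : Monotone (TF μ δ M m ν) := fun i j hij v hv => ⟨hv.1, VF_mono D hij hv.2⟩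
  have hfin := fun j => TF_fin' (μ := μ) (δ := δ) (M := M) (m := m) ν j
  have hfinV := fun j => VF_fin μ δ M.adjugate m j
  obtain ⟨j₁, hj₁⟩ := VF_dims D
  have hd1 := diff_mono (TF μ δ M m ν) hTm hfin (mx μ) (mx_inj D)
    (fun j v hv => ⟨(TK μ M ν).smul_mem _ hv.1, VF_x D hv.2⟩)
    (fun j v hv h1 => ⟨hv.1, VF_xsat D hv.2 h1.2⟩)
  have hd2 := diff_le (TF μ δ M m ν) (VF μ δ M.adjugate m) hfinV (VF_mono D)
    (fun j => inf_le_right) (fun j => by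
      apply le_antisymm
      · rintro v ⟨h1, h2⟩
        exact ⟨h1.1, h2⟩
      · intro v hv
        exact ⟨⟨hv.1, VF_mono D (by omega) hv.2⟩, hv.2⟩)
  have hmono : Monotone fun j : ℤ =>
      (finrank ℂ (TF μ δ M m ν (j + 1)) : ℤ) - finrank ℂ (TF μ δ M m ν j) :=
    monotone_int_of_le_succ hd1
  obtain ⟨j₂, hj₂⟩ := X6c.eventually_const
    (fun j => (finrank ℂ (TF μ δ M m ν (j + 1)) : ℤ) - finrank ℂ (TF μ δ M m ν j))
    (2 * (2 * (2 * m + 1))) hd1 (fun j => by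
      have h1 := hmono (le_max_left j j₁)
      have h2 := hd2 (max j j₁)
      have h3 := (hj₁ (max j j₁) (le_max_right _ _)).1
      refine h1.trans (h2.trans ?_)
      rw [h3]
      omega)
  set t : ℤ := (finrank ℂ (TF μ δ M m ν (j₂ + 1)) : ℤ) - finrank ℂ (TF μ δ M m ν j₂) with ht
  have hlT := linear_of_diff (fun j => (finrank ℂ (TF μ δ M m ν j) : ℤ)) t j₂ hj₂
  have hlV := linear_of_diff (fun j => (finrank ℂ (VF μ δ M.adjugate m j) : ℤ))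
    (2 * (2 * (2 * m + 1))) j₁ (fun j hj => by
      have := (hj₁ j hj).1
      omega)
  obtain ⟨⟨u₁, hu₁, u₂, hu₂, hu⟩, w₁, w₂, hw⟩ := exists_pair D ν hν0 hν
  have := isDomain_KG D.cur
  -- lower bound
  have hlow : 2 * (2 * (m : ℤ) + 1) ≤ t := by
    obtain ⟨q, hq, c, h1, h2⟩ := scale_two D u₁ u₂
    have h3 : ∀ b₁ b₂ : KG μ, b₁ • (q • u₁) + b₂ • (q • u₂) ∈ (⊥ : Submodule (KG μ) (W4 (KG μ))) →
        b₁ = 0 ∧ b₂ = 0 := by
      intro b₁ b₂ hb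
      rw [Submodule.mem_bot, smul_smul, smul_smul] at hb
      obtain ⟨h4, h5⟩ := hu _ _ hb
      exact ⟨(mul_eq_zero.mp h4).resolve_right hq, (mul_eq_zero.mp h5).resolve_right hq⟩
    have h4 := two_vec D ⊥ h1 h2 h3 (TF μ δ M m ν) (fun j => inf_le_right) (fun i b hb =>
      ⟨⟨(TK μ M ν).smul_mem _ ((TK μ M ν).smul_mem _ hu₁), VF_smul D hb h1⟩,
        ⟨(TK μ M ν).smul_mem _ ((TK μ M ν).smul_mem _ hu₂), VF_smul D hb h2⟩⟩)
    apply slope_le (J := max j₂ (c + 2 * m)) (b := 2 * ((2 * m + 1) * (1 - m - c)))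
      (b' := (finrank ℂ (TF μ δ M m ν j₂) : ℤ) - t * j₂)
    intro j hj
    have h5 := h4 j
    have h6 := hlT j (le_trans (le_max_left _ _) hj)
    have h7 := finrank_LF D.cur (n := j - c) (by
      have := le_trans (le_max_right _ _) hj
      omega)
    rw [← h6]
    have h8 : 2 * (finrank ℂ (LF μ (j - c)) : ℤ) ≤ finrank ℂ (TF μ δ M m ν j) := by
      have : 2 * finrank ℂ (LF μ (j - c)) ≤ finrank ℂ (TF μ δ M m ν j) := by omega
      exact_mod_cast this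
    rw [h7] at h8
    linarith
  have hup : t ≤ 2 * (2 * (m : ℤ) + 1) := by
    obtain ⟨q, hq, c, h1, h2⟩ := scale_two D w₁ w₂
    have h3 : ∀ b₁ b₂ : KG μ, b₁ • (q • w₁) + b₂ • (q • w₂) ∈ TK μ M ν →
        b₁ = 0 ∧ b₂ = 0 := by
      intro b₁ b₂ hb
      rw [smul_smul, smul_smul] at hb
      obtain ⟨h4, h5⟩ := hw _ _ hb
      exact ⟨(mul_eq_zero.mp h4).resolve_right hq, (mul_eq_zero.mp h5).resolve_right hq⟩
    have h4 := two_vec D (TK μ M ν) h1 h2 h3 (VF μ δ M.adjugate m) (fun j => le_rfl)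
      (fun i b hb => ⟨VF_smul D hb h1, VF_smul D hb h2⟩)
    have hslope : t + 2 * (2 * (m : ℤ) + 1) ≤ 2 * (2 * (2 * m + 1)) := by
      apply slope_le (J := max (max j₁ j₂) (c + 2 * m))
        (b := (finrank ℂ (TF μ δ M m ν j₂) : ℤ) - t * j₂ + 2 * ((2 * m + 1) * (1 - m - c)))
        (b' := (finrank ℂ (VF μ δ M.adjugate m j₁) : ℤ) - 2 * (2 * (2 * m + 1)) * j₁)
      intro j hj
      have h5 := h4 j
      have h6 := hlT j (le_trans (le_trans (le_max_right _ _) (le_max_left _ _)) hj)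
      have h6' := hlV j (le_trans (le_trans (le_max_left _ _) (le_max_left _ _)) hj)
      have h7 := finrank_LF D.cur (n := j - c) (by
        have := le_trans (le_max_right _ _) hj
        omega)
      rw [← h6']
      have h8 : (finrank ℂ (TF μ δ M m ν j) : ℤ) + 2 * (finrank ℂ (LF μ (j - c)) : ℤ) ≤
          finrank ℂ (VF μ δ M.adjugate m j) := by
        exact_mod_cast h5
      rw [h7, h6] at h8
      linarith
    linarith
  have htt : t = 2 * (2 * (m : ℤ) + 1) := le_antisymm hup hlow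
  refine ⟨(finrank ℂ (TF μ δ M m ν j₂) : ℤ) - t * j₂, j₂, fun j hj => ?_⟩
  have h6 := hlT j hj
  rw [h6, ← htt]

end Pool.Agent.Helper89.OS.Gr
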