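import Pool.Agent.Helper89.OS.Defs
import Pool.Agent.Helper89.VE.Defs
import Pool.Agent.Helper82.HP.TwoSec

set_option autoImplicit false

/-!
From a section over `ℂ(u₀, u₁, u₂)` to a homogeneous one.
-/

namespace Pool.Agent.Helper89.OS

open MvPolynomial Pool.Agent.Helper29.HP Pool.Agent.Helper89.VE

/-- `f ↦ ∑ f_n T^n`, `f_n` the homogeneous components -/
noncomputable def hcp : P3 →ₐ[ℂ] Polynomial P3 :=
  aeval (fun i => Polynomial.C (X i) * Polynomial.X)

theorem hcp_hom {f : P3} {n : ℕ} (hf : f.IsHomogeneous n) :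
    hcp f = Polynomial.C f * Polynomial.X ^ n := by
  have h1 : hcp f = (aeval (fun i => (Polynomial.X : Polynomial P3) * Polynomial.C (X i))) f := by
    unfold hcp
    congr 2
    funext i
    ring
  rw [h1]
  have h2 : (aeval (fun i => (Polynomial.X : Polynomial P3) * Polynomial.C (X i))) f =
      Polynomial.X ^ n * (aeval (fun i => (Polynomial.C (X i) : Polynomial P3))) f := by
    rw [aeval_def, aeval_def, eval₂_eq, eval₂_eq, Finset.mul_sum]
    refine Finset.sum_congr rfl fun d hd => ?_
    have hdn : ∑ i ∈ d.support, d i = n := by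
      have := hf (mem_support_iff.mp hd)
      rw [Finsupp.weight_apply, Finsupp.sum] at this
      simp_all
    rw [← hdn]
    simp only [mul_pow, Finset.prod_mul_distrib, Finset.prod_pow_eq_pow_sum]
    ring
  rw [h2]
  have h3 : (aeval (fun i => (Polynomial.C (X i) : Polynomial P3))) f = Polynomial.C f := by
    have h4 : (aeval (fun i => (Polynomial.C (X i) : Polynomial P3))) =
        (Algebra.ofId P3 (Polynomial P3)).restrictScalars ℂ := by
      apply MvPolynomial.algHom_ext
      intro i
      simp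
    rw [h4]
    rfl
  rw [h3, mul_comm]

theorem coeff_hcp (f : P3) (n : ℕ) : (hcp f).coeff n = homogeneousComponent n f := by
  conv_lhs => rw [← sum_homogeneousComponent f]
  rw [map_sum, Polynomial.finsetSum_coeff]
  have h1 : ∀ i, (hcp (homogeneousComponent i f)).coeff n =
      if i = n then homogeneousComponent i f else 0 := by
    intro i
    rw [hcp_hom (homogeneousComponent_isHomogeneous i f), Polynomial.coeff_C_mul_X_pow]
    simp [eq_comm]
  simp only [h1, Finset.sum_ite_eq', Finset.mem_range]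
  split_ifs with h
  · rfl
  · rw [homogeneousComponent_eq_zero]
    omega

theorem hcp_inj {f : P3} (h : hcp f = 0) : f = 0 := by
  rw [← sum_homogeneousComponent f]
  apply Finset.sum_eq_zero
  intro i _
  rw [← coeff_hcp, h, Polynomial.coeff_zero]

/-- the leading form of a polynomial solution -/
theorem lead_form {N : Matrix (Fin 3) (Fin 3) P3} (hN : ∀ i j, (N i j).IsHomogeneous 2)
    (p : Fin 3 → P3) (w : P3) (h0 : ¬ (p = 0 ∧ w = 0)) (h : w ^ 2 + p ⬝ᵥ N.mulVec p = 0) :
    ∃ (n : ℕ) (p' : Fin 3 → P3) (w' : P3), p' ≠ 0 ∧ (∀ i, (p' i).IsHomogeneous n) ∧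
      w'.IsHomogeneous (n + 1) ∧ w' ^ 2 + p' ⬝ᵥ N.mulVec p' = 0 := by
  have hp0 : p ≠ 0 := by
    rintro rfl
    apply h0
    refine ⟨rfl, ?_⟩
    simpa using h
  -- the largest degree
  obtain ⟨i₀, -, hi₀⟩ := Finset.exists_max_image (Finset.univ : Finset (Fin 3))
    (fun i => (hcp (p i)).natDegree) ⟨0, Finset.mem_univ _⟩
  set n := (hcp (p i₀)).natDegree with hnd
  have hle : ∀ i, (hcp (p i)).natDegree ≤ n := fun i => hi₀ i (Finset.mem_univ _)
  obtain ⟨j, hj⟩ : ∃ j, (hcp (p j)).coeff n ≠ 0 := by
    by_cases hn : n = 0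
    · obtain ⟨j, hj⟩ : ∃ j, p j ≠ 0 := by
        by_contra hc
        push Not at hc
        exact hp0 (funext hc)
      refine ⟨j, ?_⟩
      have h1 : (hcp (p j)).natDegree = n := by have := hle j; omega
      rw [← h1]
      have h2 : hcp (p j) ≠ 0 := fun hh => hj (hcp_inj hh)
      exact Polynomial.leadingCoeff_ne_zero.mpr h2
    · refine ⟨i₀, ?_⟩
      rw [hnd]
      apply Polynomial.leadingCoeff_ne_zero.mpr
      intro hh
      apply hn
      rw [hnd, hh, Polynomial.natDegree_zero]
  have hq : hcp w ^ 2 + Polynomial.X ^ 2 *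
      ∑ i, ∑ j, hcp (p i) * (Polynomial.C (N i j) * hcp (p j)) = 0 := by
    have h1 := congrArg hcp h
    rw [map_add, map_pow, map_zero] at h1
    simp only [dotProduct, Matrix.mulVec, map_sum, map_mul, hcp_hom (hN _ _)] at h1
    rw [← h1]
    simp only [Fin.sum_univ_three]
    ring
  have hS : (∑ i, ∑ j, hcp (p i) * (Polynomial.C (N i j) * hcp (p j))).natDegree ≤ n + n := by
    refine Polynomial.natDegree_sum_le_of_forall_le _ _ fun i _ => ?_
    refine Polynomial.natDegree_sum_le_of_forall_le _ _ fun j _ => ?_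
    refine Polynomial.natDegree_mul_le.trans ?_
    have h1 : (Polynomial.C (N i j) * hcp (p j)).natDegree ≤ (hcp (p j)).natDegree :=
      Polynomial.natDegree_C_mul_le _ _
    have h2 := hle i
    have h3 := hle j
    omega
  have hw : (hcp w).natDegree ≤ n + 1 := by
    have h1 : (hcp w ^ 2).natDegree ≤ 2 * n + 2 := by
      rw [eq_neg_of_add_eq_zero_left hq, Polynomial.natDegree_neg]
      refine Polynomial.natDegree_mul_le.trans ?_
      rw [Polynomial.natDegree_X_pow]
      omega
    rw [Polynomial.natDegree_pow] at h1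
    omega
  refine ⟨n, fun i => homogeneousComponent n (p i), homogeneousComponent (n + 1) w, ?_,
    fun i => homogeneousComponent_isHomogeneous _ _, homogeneousComponent_isHomogeneous _ _, ?_⟩
  · intro hh
    apply hj
    rw [coeff_hcp]
    exact congrFun hh j
  · have h1 := congrArg (fun f => Polynomial.coeff f (2 * n + 2)) hq
    simp only [Polynomial.coeff_add, Polynomial.coeff_zero] at h1
    have h2 : (hcp w ^ 2).coeff (2 * n + 2) = homogeneousComponent (n + 1) w ^ 2 := by
      rw [pow_two, show 2 * n + 2 = (n + 1) + (n + 1) by ring,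
        Polynomial.coeff_mul_add_eq_of_natDegree_le hw hw, coeff_hcp, pow_two]
    have h3 : (Polynomial.X ^ 2 *
        ∑ i, ∑ j, hcp (p i) * (Polynomial.C (N i j) * hcp (p j))).coeff (2 * n + 2) =
        (fun i => homogeneousComponent n (p i)) ⬝ᵥ
          N.mulVec (fun i => homogeneousComponent n (p i)) := by
      rw [show 2 * n + 2 = (n + n) + 2 by ring, mul_comm, Polynomial.coeff_mul_X_pow,
        Polynomial.finsetSum_coeff]
      simp only [dotProduct, Matrix.mulVec]
      refine Finset.sum_congr rfl fun i _ => ?_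
      rw [Polynomial.finsetSum_coeff, Finset.mul_sum]
      refine Finset.sum_congr rfl fun j _ => ?_
      have h4 : (Polynomial.C (N i j) * hcp (p j)).natDegree ≤ n :=
        (Polynomial.natDegree_C_mul_le _ _).trans (hle j)
      rw [Polynomial.coeff_mul_add_eq_of_natDegree_le (hle i) h4, Polynomial.coeff_C_mul, coeff_hcp,
        coeff_hcp]
    rw [h2, h3] at h1
    exact h1

/-- a section over `ℂ(u₀, u₁, u₂)` gives one over `ℂ(y₁, y₂)` -/
theorem section_KK {a : Cof} (x : Fin 3 → FU) (w : FU) (h0 : ¬ (x = 0 ∧ w = 0))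
    (h : w ^ 2 + ∑ k, ∑ l,
      algebraMap P3 FU (X k) * algebraMap P3 FU (X l) * aeval x (MX a k l) = 0) :
    ∃ y : Fin 4 → KK, y ≠ 0 ∧ y ⬝ᵥ ((VU a).map psiK).mulVec y = 0 := by
  have hinj : Function.Injective (algebraMap P3 FU) := IsFractionRing.injective P3 FU
  obtain ⟨q, hq⟩ := IsLocalization.exist_integer_multiples_of_finset (nonZeroDivisors P3)
    (Finset.univ.image (Fin.snoc x w : Fin 4 → FU))
  have hq0 : algebraMap P3 FU q ≠ 0 := by
    rw [Ne, map_eq_zero_iff _ hinj]
    exact nonZeroDivisors.coe_ne_zero q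
  have hxi : ∀ i, ∃ p : P3, algebraMap P3 FU p = algebraMap P3 FU q * x i := by
    intro i
    obtain ⟨p, hp⟩ := hq (x i) (by
      rw [Finset.mem_image]
      exact ⟨i.castSucc, Finset.mem_univ _, by simp⟩)
    exact ⟨p, by rw [hp, Algebra.smul_def]⟩
  choose p hp using hxi
  obtain ⟨v, hv⟩ : ∃ v : P3, algebraMap P3 FU v = algebraMap P3 FU q * w := by
    obtain ⟨p, hp⟩ := hq w (by
      rw [Finset.mem_image]
      exact ⟨3, Finset.mem_univ _, by
        have : (3 : Fin 4) = Fin.last 3 := rfl
        rw [this, Fin.snoc_last]⟩)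
    exact ⟨p, by rw [hp, Algebra.smul_def]⟩
  have hpv : v ^ 2 + p ⬝ᵥ (NU a).mulVec p = 0 := by
    apply hinj
    rw [map_zero, map_add, map_pow, hv]
    have h1 : algebraMap P3 FU (p ⬝ᵥ (NU a).mulVec p) = algebraMap P3 FU q ^ 2 * ∑ k, ∑ l,
      algebraMap P3 FU (X k) * algebraMap P3 FU (X l) * aeval x (MX a k l) := by
      simp only [dotProduct, Matrix.mulVec, map_sum, map_mul, hp, NU, MX, Matrix.of_apply,
        aeval_C, aeval_X]
      have hC : ∀ z : ℂ, algebraMap P3 FU (C z) = algebraMap ℂ FU z := fun z => rfl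
      simp only [hC, Finset.mul_sum, Finset.sum_mul]
      calc _ = ∑ i, ∑ j, ∑ k, ∑ l, algebraMap P3 FU q ^ 2 * (algebraMap ℂ FU (a i j k l) *
            (algebraMap P3 FU (X k) * algebraMap P3 FU (X l)) * (x i * x j)) := by
            refine Finset.sum_congr rfl fun i _ => Finset.sum_congr rfl fun j _ =>
              Finset.sum_congr rfl fun k _ => Finset.sum_congr rfl fun l _ => ?_
            ring
        _ = ∑ k, ∑ l, ∑ i, ∑ j, algebraMap P3 FU q ^ 2 * (algebraMap ℂ FU (a i j k l) *
            (algebraMap P3 FU (X k) * algebraMap P3 FU (X l)) * (x i * x j)) := by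
            simp only [Fin.sum_univ_three]
            ring
        _ = _ := by
            refine Finset.sum_congr rfl fun k _ => Finset.sum_congr rfl fun l _ =>
              Finset.sum_congr rfl fun i _ => Finset.sum_congr rfl fun j _ => ?_
            ring
    rw [h1, mul_pow, ← mul_add, h, mul_zero]
  have hpv0 : ¬ (p = 0 ∧ v = 0) := by
    rintro ⟨rfl, rfl⟩
    apply h0
    constructor
    · funext i
      have := hp i
      simp only [Pi.zero_apply, map_zero] at this
      exact (mul_eq_zero.mp this.symm).resolve_left hq0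
    · rw [map_zero] at hv
      exact (mul_eq_zero.mp hv.symm).resolve_left hq0
  obtain ⟨n, p', w', hp0, hph, hwh, hpw⟩ := lead_form (NU_hom a) p v hpv0 hpv
  refine ⟨fun i => psiK ((Fin.snoc p' w' : Fin 4 → P3) i), ?_, ?_⟩
  · intro hh
    apply hp0
    funext i
    by_contra hne
    have h1 := congrFun hh i.castSucc
    simp only [Fin.snoc_castSucc, Pi.zero_apply] at h1
    have h2 : algebraMap AA KK (psi (p' i)) = 0 := h1
    rw [map_eq_zero_iff _ (IsFractionRing.injective AA KK)] at h2
    exact psi_ne_zero (hph i) hne h2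
  · have h2 := Pool.Agent.Helper82.HP.map_dot (psiK : P3 →+* KK) (VU a)
      (Fin.snoc p' w' : Fin 4 → P3) (Fin.snoc p' w' : Fin 4 → P3)
    have h3 : (Fin.snoc p' w' : Fin 4 → P3) ⬝ᵥ (VU a).mulVec (Fin.snoc p' w' : Fin 4 → P3) = 0 := by
      rw [VU, bord_form]
      have h4 : (Fin.snoc p' w' : Fin 4 → P3) 3 = w' := by
        have : (3 : Fin 4) = Fin.last 3 := rfl
        rw [this, Fin.snoc_last]
      simp only [Fin.snoc_castSucc, h4]
      rw [← hpw]
      ring
    rw [h3, map_zero] at h2
    exact h2.symm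

end Pool.Agent.Helper89.OS
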